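import Pool.Agent.helper48.AN.SpecA

namespace AN

open scoped Classical

noncomputable section

lemma CD_pow {R : Type} [CommRing R] {g : ℕ} {γ : Fin g → ℕ} {a : ℕ → LS R}
    (h1 : LS.C (1 : R) ∈ AA γ a) (hm : ∀ f ∈ AA γ a, ∀ h ∈ AA γ a, f * h ∈ AA γ a) {f : LS R}
    (hf : f ∈ AA γ a) (k : ℕ) : f ^ k ∈ AA γ a := by
  induction k with
  | zero => rw [pow_zero, ← map_one LS.C]; exact h1
  | succ k ih => rw [pow_succ]; exact hm _ ih _ hf

theorem CD (hKB : KB_stmt) (hCB : CB_stmt) : CD_stmt := by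
  intro p hp R _ _ g γ a h η hη
  obtain ⟨-, hC, -, hm, -, -, -, -⟩ := hKB R g γ a h
  have hchar : CharP (LS R) p := by
    refine charP_of_injective_ringHom (f := (LS.C : R →+* LS R)) ?_ p
    exact HahnSeries.C_injective
  have hp0 : p ≠ 0 := hp.out.ne_zero
  induction hη using Submodule.span_induction with
  | mem x hx =>
    obtain ⟨f, hf, k, hk, rfl⟩ := hx
    obtain ⟨y, hy⟩ := hCB p R k
    refine ⟨(f ^ p * k ^ (p - 1)) * dd k, Submodule.subset_span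
      ⟨_, hm _ (CD_pow (hC 1) hm hf p) _ (CD_pow (hC 1) hm hk (p - 1)), k, hk, rfl⟩, f ^ p * y, ?_⟩
    rw [dd_mul, dd_pow_char p f p dvd_rfl, zero_mul, zero_add, mul_assoc, hy, mul_pow]
    ring
  | zero =>
    refine ⟨0, Submodule.zero_mem _, 0, ?_⟩
    rw [zero_pow hp0, zero_mul, map_zero, add_zero]
  | add x x' _ _ ih ih' =>
    obtain ⟨ζ, hζ, y, hy⟩ := ih
    obtain ⟨ζ', hζ', y', hy'⟩ := ih'
    refine ⟨ζ + ζ', Submodule.add_mem _ hζ hζ', y + y', ?_⟩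
    rw [add_pow_char, map_add, hy, hy']
    ring
  | smul c x _ ih =>
    obtain ⟨ζ, hζ, y, hy⟩ := ih
    refine ⟨c ^ p • ζ, Submodule.smul_mem _ _ hζ, c ^ p • y, ?_⟩
    rw [smul_pow, map_smul, hy, smul_add, smul_mul_assoc]

end

end AN
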