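import Pool.Agent.helper48.AN.SpecA

namespace AN

open scoped Classical

noncomputable section

/-- upper bound for the gaps -/
lemma TB_bound {g : ℕ} (γ : Fin g → ℕ) : ∃ Γ : ℕ, ∀ i, γ i ≤ Γ :=
  ⟨Finset.univ.sup γ, fun i => Finset.le_sup (Finset.mem_univ i)⟩

lemma TB_lead {R : Type} [CommRing R] {g : ℕ} {γ : Fin g → ℕ} {a : ℕ → LS R} (h : IsK γ a)
    {Γ r : ℕ} (hΓ : ∀ i, γ i ≤ Γ) (hr : Γ < r) : ¬ Gp γ r ∧ a r ∈ GE R (-(r : ℤ)) ∧
      cf (a r) (-(r : ℤ)) = 1 := by
  have hg : ∀ k : ℕ, Γ < k → ¬ Gp γ k := by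
    rintro k hk ⟨i, hi⟩
    have := hΓ i
    omega
  refine ⟨hg r hr, ?_, ?_⟩
  · intro n hn
    have h1 := h.coef r (-n).toNat (hg r hr) (hg _ (by omega))
    rw [if_neg (by omega)] at h1
    rwa [show (-(((-n).toNat : ℕ) : ℤ)) = n by omega] at h1
  · rw [h.coef r r (hg r hr) (hg r hr), if_pos rfl]

lemma TB_step {K : Type} [Field K] {g : ℕ} {γ : Fin g → ℕ} {a : ℕ → LS K} (h : IsK γ a)
    {Γ : ℕ} (hΓ : ∀ i, γ i ≤ Γ) {w : LS K} {v : ℤ} (hw : w ∈ GE K v) (hv : cf w v ≠ 0) (k : ℕ) :
    ∀ ω ∈ GE K (v - Γ - k), ∃ f ∈ AA γ a, ω - w * f ∈ GE K (v - Γ) := by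
  induction k with
  | zero =>
    intro ω hω
    refine ⟨0, Submodule.zero_mem _, ?_⟩
    simpa using hω
  | succ k ih =>
    intro ω hω
    obtain ⟨hg, h1, h2⟩ := TB_lead h hΓ (show Γ < Γ + (k + 1) by omega)
    set r := Γ + (k + 1) with hr
    set n : ℤ := v - Γ - (k + 1 : ℕ) with hn
    set c : K := cf ω n / cf w v with hc
    have h3 : w * a r ∈ GE K (v + -(r : ℤ)) := GE_mul hw h1
    have h4 : cf (w * a r) (v + -(r : ℤ)) = cf w v := by
      rw [cf_mul_lead hw h1, h2, mul_one]
    have h5 : v + -(r : ℤ) = n := by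
      rw [hr, hn]
      push_cast
      ring
    rw [h5] at h3 h4
    have h6 : ω - c • (w * a r) ∈ GE K (v - Γ - k) := by
      intro j hj
      rw [cf_sub, cf_smul]
      rcases lt_or_ge j n with h7 | h7
      · rw [hω j h7, h3 j h7]
        ring
      · have h8 : j = n := by
          rw [hn] at h7 ⊢
          push_cast at h7 ⊢
          omega
        rw [h8, h4, hc]
        field_simp
        ring
    obtain ⟨f, hf, hf2⟩ := ih _ h6
    refine ⟨f + c • a r, Submodule.add_mem _ hf (Submodule.smul_mem _ _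
      (Submodule.subset_span ⟨r, hg, rfl⟩)), ?_⟩
    have h9 : ω - w * (f + c • a r) = ω - c • (w * a r) - w * f := by
      rw [mul_add, mul_smul_comm]
      ring
    rw [h9]
    exact hf2

theorem TB (hKB : KB_stmt) : TB_stmt := by
  intro K _ g γ a h
  obtain ⟨-, -, -, -, -, -, hmul, hres⟩ := hKB K g γ a h
  have hAr : ∀ r, ¬ Gp γ r → a r ∈ AA γ a := fun r hr => Submodule.subset_span ⟨r, hr, rfl⟩
  obtain ⟨Γ, hΓ⟩ := TB_bound γ
  refine ⟨?_, ?_⟩
  · intro m
    -- the coefficients at `m ≤ n ≤ Γ`
    let L : (OmA γ a ⊓ GE K m : Submodule K (LS K)) →ₗ[K] (Finset.Icc m (Γ : ℤ) → K) :=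
      { toFun := fun ω n => cf ω.1 n.1
        map_add' := fun x y => by
          funext n
          exact cf_add _ _ _
        map_smul' := fun c x => by
          funext n
          exact cf_smul _ _ _ }
    have hinj : Function.Injective L := by
      rw [← LinearMap.ker_eq_bot, LinearMap.ker_eq_bot']
      rintro ⟨ω, hω1, hω2⟩ h0
      have h0' : ∀ n : ℤ, n ≤ Γ → cf ω n = 0 := by
        intro n hn
        rcases lt_or_ge n m with h1 | h1
        · exact hω2 n h1
        · exact congrFun h0 ⟨n, Finset.mem_Icc.2 ⟨h1, hn⟩⟩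
      apply Subtype.ext
      apply LS.ext
      intro n
      rcases le_or_gt n (Γ : ℤ) with h1 | h1
      · exact h0' n h1
      · obtain ⟨hg, h2, h3⟩ := TB_lead h hΓ (show Γ < (n + 1).toNat by omega)
        set r := (n + 1).toNat with hr
        have h4 : res (a r * ω) = 0 := hres _ (hmul _ (hAr r hg) _ hω1)
        rcases lt_or_ge n m with h5 | h5
        · exact hω2 n h5
        · have h6 : res (a r * ω) = cf ω n := by
            unfold res
            rw [cf_mul_finset (a r) ω (-1) h2 (show ω ∈ GE K m from hω2),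
              Finset.sum_eq_single (-(r : ℤ))]
            · rw [h3, one_mul]
              congr 1
              omega
            · intro i hi hir
              rw [Finset.mem_Icc] at hi
              by_cases hi0 : 0 < i
              · rw [h0' (-1 - i) (by omega), mul_zero]
              · by_cases hgi : Gp γ (-i).toNat
                · obtain ⟨j, hj⟩ := hgi
                  have := hΓ j
                  rw [h0' (-1 - i) (by omega), mul_zero]
                · have h7 := h.coef r (-i).toNat hg hgi
                  rw [if_neg (by omega), show -(((-i).toNat : ℕ) : ℤ) = i by omega] at h7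
                  rw [h7, zero_mul]
            · intro hn
              exact absurd (Finset.mem_Icc.2 ⟨le_rfl, by omega⟩) hn
          change cf ω n = 0
          rw [← h6, h4]
    exact FiniteDimensional.of_injective L hinj
  · intro w hw hw0
    obtain ⟨N, hN⟩ := exists_lb w
    -- order of `w`
    have hex : ∃ k : ℕ, cf w (N + k) ≠ 0 := by
      by_contra hne
      push Not at hne
      apply hw0
      apply LS.ext
      intro n
      rcases lt_or_ge n N with h1 | h1
      · rw [hN n h1, cf_zero]
      · have := hne (n - N).toNat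
        rwa [show N + (((n - N).toNat : ℕ) : ℤ) = n by omega] at this
    set k := Nat.find hex with hk
    have hk1 := Nat.find_spec hex
    have hwG : w ∈ GE K (N + k) := by
      intro n hn
      rcases lt_or_ge n N with h1 | h1
      · exact hN n h1
      · by_contra hne
        have h2 := Nat.find_min hex (m := (n - N).toNat) (by omega)
        rw [show N + (((n - N).toNat : ℕ) : ℤ) = n by omega] at h2
        exact h2 hne
    refine ⟨N + k - Γ, fun ω hω => ?_⟩
    obtain ⟨N', hN'⟩ := exists_lb ω
    refine TB_step h hΓ hwG hk1 (N + k - Γ - N').toNat ω ?_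
    exact GE_mono (by omega) (show ω ∈ GE K N' from hN')

end

end AN
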